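import Pool.Agent.Q320.DomGame
import Mathlib.Combinatorics.SimpleGraph.CycleGraph
import Mathlib.Combinatorics.SimpleGraph.Hasse

/-!
# The misere domination game on paths and cycles
-/

namespace Pool.Agent.Results.MP_56c280_lc.PathsAndCycles

open Pool.Agent.Q320.Heap337 Pool.Agent.Q320.DomGame SimpleGraph

/-- Alice, who moves first, wins the misere domination game on `G`. -/
def AliceWins {V : Type} [Fintype V] [DecidableEq V] (G : SimpleGraph V) : Prop := MoverWins G ∅

theorem not_dominated_empty {V : Type} (G : SimpleGraph V) (w : V) : w ∉ dominated G ∅ := by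
  simp [dominated]

theorem legal_empty {V : Type} (G : SimpleGraph V) (v : V) : Legal G ∅ v := fun h =>
  not_dominated_empty G v (h (Or.inl rfl))

theorem mem_dominated_single {V : Type} (G : SimpleGraph V) (v w : V) :
    w ∈ dominated G {v} ↔ (w = v ∨ G.Adj v w) := by
  simp [dominated]

theorem aliceWins_iff {V : Type} [Fintype V] [DecidableEq V] (G : SimpleGraph V) (v : V) :
    AliceWins G ↔ ∃ v, ¬ MoverWins G {v} := by
  unfold AliceWins
  rw [moverWins_iff]
  constructor
  · rintro (h | ⟨v, -, h⟩)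
    · exact absurd (legal_empty G v) (h v)
    · exact ⟨v, h⟩
  · rintro ⟨v, h⟩
    exact Or.inr ⟨v, legal_empty G v, h⟩

/-! ### paths -/

theorem path_coord (n : ℕ) : Coord (pathGraph n) (fun v => (v.val : ℤ)) 0 (n - 1) (fun _ => True) where
  near := by
    intro C v w _ _ h
    rw [pathGraph_adj, Fin.ext_iff] at h
    have := v.isLt
    omega
  near' := by
    intro C v w _ _ h1 h2
    rw [pathGraph_adj, Fin.ext_iff]
    omega
  surj := by
    intro c h1 h2
    exact ⟨⟨c.toNat, by omega⟩, by simp only; omega⟩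
  mono := fun _ _ _ h => h

theorem path_first (n : ℕ) (v : Fin n) (hn : 2 ≤ n) :
    ∃ s, RR (pathGraph n) (fun v => (v.val : ℤ)) 0 (n - 1) (fun _ => True) {v} s ∧
      ((v.val = 0 ∧ s = {n - 2}) ∨ (v.val + 1 = n ∧ s = {n - 2}) ∨
        (1 ≤ v.val ∧ v.val + 2 ≤ n ∧ s = {v.val - 1, n - v.val - 2})) := by
  have hv := v.isLt
  rcases (by omega : v.val = 0 ∨ v.val + 1 = n ∨ (1 ≤ v.val ∧ v.val + 2 ≤ n)) with h | h | h
  · refine ⟨{n - 2}, ⟨trivial, [(2, n - 2)], ⟨by simp, ?_, ?_⟩, rfl⟩, Or.inl ⟨h, rfl⟩⟩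
    · unfold Ok; simp only [List.mem_singleton, forall_eq]; omega
    · intro w
      have hw := w.isLt
      rw [mem_dominated_single, pathGraph_adj, Fin.ext_iff]
      unfold In
      simp only [List.mem_singleton, exists_eq_left]
      omega
  · refine ⟨{n - 2}, ⟨trivial, [(0, n - 2)], ⟨by simp, ?_, ?_⟩, rfl⟩, Or.inr (Or.inl ⟨h, rfl⟩)⟩
    · unfold Ok; simp only [List.mem_singleton, forall_eq]; omega
    · intro w
      have hw := w.isLt
      rw [mem_dominated_single, pathGraph_adj, Fin.ext_iff]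
      unfold In
      simp only [List.mem_singleton, exists_eq_left]
      omega
  · refine ⟨{v.val - 1, n - v.val - 2}, ⟨trivial, [(0, v.val - 1), ((v.val : ℤ) + 2, n - v.val - 2)],
      ⟨?_, ?_, ?_⟩, rfl⟩, Or.inr (Or.inr ⟨h.1, h.2, rfl⟩)⟩
    · rw [List.pairwise_cons]
      refine ⟨?_, by simp⟩
      intro q hq
      rw [List.mem_singleton] at hq
      subst hq
      unfold Pool.Agent.Q320.DomGame.Sep
      simp only
      omega
    · intro q hq
      unfold Ok
      simp only [List.mem_cons, List.not_mem_nil, or_false] at hq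
      rcases hq with rfl | rfl <;> simp only <;> omega
    · intro w
      have hw := w.isLt
      rw [mem_dominated_single, pathGraph_adj, Fin.ext_iff]
      unfold In
      simp only [List.mem_cons, List.not_mem_nil, or_false, exists_eq_or_imp, exists_eq_left]
      omega

theorem path_iff (n : ℕ) (hn : 2 ≤ n) :
    AliceWins (pathGraph n) ↔ (PPos {n - 2} ∨ ∃ i j, i + j + 3 = n ∧ PPos {i, j}) := by
  rw [aliceWins_iff _ (⟨0, by omega⟩ : Fin n)]
  constructor
  · rintro ⟨v, hv⟩
    obtain ⟨s, hs, h⟩ := path_first n v hn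
    rw [main (path_coord n) _ _ hs, not_not] at hv
    rcases h with ⟨-, rfl⟩ | ⟨-, rfl⟩ | ⟨h1, h2, rfl⟩
    · exact Or.inl hv
    · exact Or.inl hv
    · exact Or.inr ⟨_, _, by omega, hv⟩
  · rintro (h | ⟨i, j, hij, h⟩)
    · obtain ⟨s, hs, h'⟩ := path_first n ⟨0, by omega⟩ hn
      refine ⟨⟨0, by omega⟩, ?_⟩
      rw [main (path_coord n) _ _ hs, not_not]
      simp only at h'
      rcases h' with ⟨-, rfl⟩ | ⟨h1, -⟩ | ⟨h1, -⟩
      · exact h
      · omega
      · omega
    · obtain ⟨s, hs, h'⟩ := path_first n ⟨i + 1, by omega⟩ hn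
      refine ⟨⟨i + 1, by omega⟩, ?_⟩
      rw [main (path_coord n) _ _ hs, not_not]
      simp only at h'
      rcases h' with ⟨h1, -⟩ | ⟨h1, -⟩ | ⟨h1, h2, rfl⟩
      · omega
      · omega
      · have e1 : i + 1 - 1 = i := by omega
        have e2 : n - (i + 1) - 2 = j := by omega
        rw [e1, e2]
        exact h

theorem PPos_single (m : ℕ) : PPos {m} ↔ PP m (wt m) (tp m) := by
  have : ({m} : Multiset ℕ) = m ::ₘ 0 := rfl
  rw [this, PPos_iff_cons]
  simp [SS, TT]

theorem PPos_pair (i j : ℕ) : PPos {i, j} ↔ PP (i + j) (wt i + wt j) (max (tp i) (tp j)) := by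
  have : ({i, j} : Multiset ℕ) = i ::ₘ j ::ₘ 0 := rfl
  rw [this, PPos_iff_cons_cons]
  simp [SS, TT]

theorem PPos_single_iff (m : ℕ) : PPos {m} ↔ (m = 1 ∨ m = 5 ∨ (10 ≤ m ∧ m % 4 = 2)) := by
  rw [PPos_single]
  rcases heap_cases m with hm | ⟨k, hk, rfl⟩ | ⟨k, hk, rfl⟩
  · unfold PP
    interval_cases m <;> decide
  · rw [wt_even k (by omega), tp_even k (by omega)]
    unfold PP
    omega
  · rw [wt_odd k (by omega), tp_odd k (by omega)]
    unfold PP
    omega

theorem path_arith (n : ℕ) (hn : 2 ≤ n) :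
    (PPos {n - 2} ∨ ∃ i j, i + j + 3 = n ∧ PPos {i, j}) ↔
      ¬ (n = 2 ∨ n = 5 ∨ n = 6 ∨ (10 ≤ n ∧ n % 4 = 2)) := by
  rw [PPos_single_iff]
  constructor
  · rintro (h | ⟨i, j, hij, h⟩)
    · omega
    · rw [PPos_pair] at h
      unfold PP at h
      rcases h with ⟨h1, h2⟩ | ⟨h1, h2, h3⟩
      · have a1 := wt_small i (by omega)
        have a2 := wt_small j (by omega)
        omega
      · have h5 : n % 2 = 1 := by omega
        have h6 : n ≠ 5 := by
          rintro rfl
          have h7 : i ≤ 2 := by omega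
          interval_cases i
          · have : j = 2 := by omega
            subst this
            revert h3; decide
          · have : j = 1 := by omega
            subst this
            revert h1; decide
          · have : j = 0 := by omega
            subst this
            revert h3; decide
        omega
  · intro h
    by_cases hpar : n % 2 = 0
    · rcases (by omega : n = 4 ∨ n = 8 ∨ 12 ≤ n) with h1 | h1 | h1
      · right
        refine ⟨0, 1, by omega, ?_⟩
        rw [PPos_pair]; unfold PP; decide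
      · right
        refine ⟨0, 5, by omega, ?_⟩
        rw [PPos_pair]; unfold PP; decide
      · left; omega
    · rcases (by omega : n = 3 ∨ n = 11 ∨ n = 13 ∨ (7 ≤ n ∧ n ≠ 11 ∧ n ≠ 13)) with h1 | h1 | h1 | h1
      · left; omega
      · right
        refine ⟨2, 6, by omega, ?_⟩
        rw [PPos_pair]; unfold PP; decide
      · right
        refine ⟨3, 7, by omega, ?_⟩
        rw [PPos_pair]; unfold PP; decide
      · right
        refine ⟨(n - 3) / 2, (n - 3) / 2, by omega, ?_⟩
        rw [PPos_pair]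
        have hw : wt ((n - 3) / 2) ≠ 0 := by
          intro h0
          have := wt_small _ h0
          omega
        have := tp_le_wt ((n - 3) / 2)
        rw [max_self]
        exact pp_even (by omega) (by omega) (by omega) (by omega)

/-! ### cycles -/

theorem sub_val (n : ℕ) (a b : Fin n) :
    (a - b).val = if b.val ≤ a.val then a.val - b.val else n + a.val - b.val := by
  have ha := a.isLt
  have hb := b.isLt
  rw [Fin.val_sub]
  split_ifs with h
  · have : n - b.val + a.val = (a.val - b.val) + n := by omega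
    rw [this, Nat.add_mod_right, Nat.mod_eq_of_lt (by omega)]
  · have : n - b.val + a.val = n + a.val - b.val := by omega
    rw [this, Nat.mod_eq_of_lt (by omega)]

theorem cycle_coord (n : ℕ) (hn : 3 ≤ n) (v₀ : Fin n) :
    Coord (cycleGraph n) (fun v => ((v - v₀).val : ℤ)) 1 (n - 1) (fun C => v₀ ∈ C) where
  near := by
    intro C v w hg hw h
    have h1 : ¬ (w = v₀ ∨ (cycleGraph n).Adj v₀ w) := fun h' => hw ⟨v₀, hg, h'⟩
    rw [cycleGraph_adj', sub_val, sub_val, Fin.ext_iff] at h h1
    have a1 := v.isLt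
    have a2 := v₀.isLt
    have a3 := w.isLt
    simp only [sub_val]
    split_ifs at * <;> omega
  near' := by
    intro C v w hg hw h2 h3
    have h1 : ¬ (w = v₀ ∨ (cycleGraph n).Adj v₀ w) := fun h' => hw ⟨v₀, hg, h'⟩
    rw [cycleGraph_adj', sub_val, sub_val, Fin.ext_iff] at h1 ⊢
    have a1 := v.isLt
    have a2 := v₀.isLt
    have a3 := w.isLt
    simp only [sub_val] at h2 h3
    split_ifs at * <;> omega
  surj := by
    intro c h1 h2
    have a2 := v₀.isLt
    by_cases h : v₀.val + c.toNat < n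
    · refine ⟨⟨v₀.val + c.toNat, h⟩, ?_⟩
      simp only [sub_val]
      split_ifs <;> omega
    · refine ⟨⟨v₀.val + c.toNat - n, by omega⟩, ?_⟩
      simp only [sub_val]
      split_ifs <;> omega
  mono := fun _ _ h h' => h h'

theorem cycle_first (n : ℕ) (hn : 3 ≤ n) (v₀ : Fin n) :
    RR (cycleGraph n) (fun v => ((v - v₀).val : ℤ)) 1 (n - 1) (fun C => v₀ ∈ C) {v₀} {n - 3} := by
  refine ⟨Finset.mem_singleton_self _, [(2, n - 3)], ⟨by simp, ?_, ?_⟩, rfl⟩
  · unfold Ok; simp only [List.mem_singleton, forall_eq]; omega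
  · intro w
    have hw := w.isLt
    have hv := v₀.isLt
    rw [mem_dominated_single, cycleGraph_adj', sub_val, sub_val, Fin.ext_iff]
    unfold In
    simp only [List.mem_singleton, exists_eq_left, sub_val]
    split_ifs <;> omega

theorem cycle_iff (n : ℕ) (hn : 3 ≤ n) : AliceWins (cycleGraph n) ↔ PPos {n - 3} := by
  rw [aliceWins_iff _ (⟨0, by omega⟩ : Fin n)]
  constructor
  · rintro ⟨v, hv⟩
    rwa [main (cycle_coord n hn v) _ _ (cycle_first n hn v), not_not] at hv
  · intro h
    refine ⟨⟨0, by omega⟩, ?_⟩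
    rwa [main (cycle_coord n hn _) _ _ (cycle_first n hn _), not_not]

theorem path_zero : AliceWins (pathGraph 0) := by
  unfold AliceWins
  rw [moverWins_iff]
  left
  exact fun v => v.elim0

theorem path_one : ¬ AliceWins (pathGraph 1) := by
  rw [aliceWins_iff _ (0 : Fin 1)]
  rintro ⟨v, hv⟩
  apply hv
  rw [moverWins_iff]
  left
  intro w hw
  apply hw
  intro x _
  exact ⟨v, Finset.mem_singleton_self v, Or.inl (Subsingleton.elim x v)⟩

/-- **The misere domination game on paths and cycles.** -/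
theorem result :
    (∀ n : ℕ, AliceWins (pathGraph n) ↔
      ¬ (n = 1 ∨ n = 2 ∨ n = 5 ∨ n = 6 ∨ (10 ≤ n ∧ n % 4 = 2))) ∧
    (∀ n : ℕ, 3 ≤ n → (AliceWins (cycleGraph n) ↔
      (n = 4 ∨ n = 8 ∨ (13 ≤ n ∧ n % 4 = 1)))) := by
  constructor
  · intro n
    rcases (by omega : n = 0 ∨ n = 1 ∨ 2 ≤ n) with rfl | rfl | hn
    · simp [path_zero]
    · simp [path_one]
    · rw [path_iff n hn, path_arith n hn]
      omega
  · intro n hn
    rw [cycle_iff n hn, PPos_single_iff]
    omega

end Pool.Agent.Results.MP_56c280_lc.PathsAndCycles
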